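import Pool.Agent.Y230.PS.Last
import Pool.Agent.Q57.MD.Cases

set_option autoImplicit false

/-! # p-adic integrals near a point: definitions and statements of the steps -/

namespace Pool.Agent.Q57.QP

open MeasureTheory MvPolynomial Topology
open Pool.Agent.W427.SMC Pool.Agent.Y230.PT Pool.Agent.Y230.PS
open Pool.Agent.Y229 (SF IsLocalBI)
open Pool.Agent.W574.LM (IsLocEq)
open scoped ENNReal

attribute [local instance] msK bsK msZ bsZ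

/-- the Haar measure of `ℚ_p ^ σ` -/
noncomputable def muE (p : ℕ) [Fact p.Prime] (σ : Type) [Fintype σ] : Measure (σ → ℚ_[p]) :=
  Measure.pi fun _ : σ => nu p

/-- compact open sets -/
def CO {X : Type} [TopologicalSpace X] (V : Set X) : Prop := IsCompact V ∧ IsOpen V

section defs

variable {p : ℕ} [Fact p.Prime] {σ ι : Type}

/-- the maximum of the norms of the values of a family of polynomials -/
noncomputable def nrm [Fintype ι] (f : ι → MvPolynomial σ ℚ_[p]) (x : σ → ℚ_[p]) : ℝ :=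
  ‖fun j => eval x (f j)‖

/-- size functions -/
structure Siz (h : (σ → ℚ_[p]) → ℝ) : Prop where
  cont : Continuous h
  val : ∀ x, h x = 0 ∨ ∃ k : ℤ, h x = (p : ℝ) ^ k

/-- the integral of `h ^ s` over `V` -/
noncomputable def IZ [Fintype σ] (h : (σ → ℚ_[p]) → ℝ) (V : Set (σ → ℚ_[p])) (s : ℝ) : ℂ :=
  ((∫⁻ x in V, ENNReal.ofReal (h x ^ s) ∂(muE p σ)).toReal : ℂ)

/-- The integrals of `h ^ s` over all small compact open sets near `P` are rational functions of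
`T = p ^ (-s)`, whose poles `T` with `|T| > 1` have at most the order `m T` and which have no other
poles except `0`. -/
def LP [Fintype σ] (m : ℂ → ℕ∞) (h : (σ → ℚ_[p]) → ℝ) (P : σ → ℚ_[p]) : Prop :=
  ∃ U : Set (σ → ℚ_[p]), IsOpen U ∧ P ∈ U ∧ ∀ V, V ⊆ U → CO V → FR p m (IZ h V)

/-- `∞` for the numbers `T` such that the real part of the `s` with `T = p ^ (-s)` is a root of all
local functional equations of the family at `P`, and `0` for the other ones -/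
noncomputable def mS [Fintype ι] (φ : ℚ_[p] →+* ℂ) (f : ι → MvPolynomial σ ℚ_[p])
    (P : σ → ℚ_[p]) (T : ℂ) : ℕ∞ :=
  open Classical in
  if SF (fun j => map φ (f j)) (fun i => φ (P i)) ((rr p T : ℝ) : ℂ) then ⊤ else 0

/-- the strong conjecture for the family `f` near the point `P` -/
def LPF [Fintype σ] [Fintype ι] (φ : ℚ_[p] →+* ℂ) (f : ι → MvPolynomial σ ℚ_[p])
    (P : σ → ℚ_[p]) : Prop := LP (mS φ f P) (nrm f) P

end defs

/-! ## Steps -/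

/-- Step PL1: a local functional equation and the integrals near a point of the plane (the local
version of `Pool.Agent.Y230.PT.local_C`, with `Pool.Agent.W574.LM` instead of its global version). -/
def StPL1 : Prop := ∀ (p : ℕ) [Fact p.Prime] {ι : Type} [Fintype ι] [DecidableEq ι]
  (φ : ℚ_[p] →+* ℂ) (f : ι → MvPolynomial (Fin 2) ℚ_[p]) (b : Polynomial ℂ)
  (H : MvPolynomial (Fin 2) ℂ), IsLocEq H (fun j => map φ (f j)) b → ∀ {T0 : ℂ}, T0 ≠ 0 →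
  b.eval ((rr p T0 : ℝ) : ℂ) ≠ 0 → ∀ P : Fin 2 → ℚ_[p], eval (fun i => φ (P i)) H ≠ 0 →
  (∃ j, f j ≠ 0) →
  LReg T0 0 (Zc (Hn (fun j => (aeval
    (fun i => X i + C (P i)) (f j) : MvPolynomial (Fin 2) ℚ_[p])) 0 1 0 1)) (0, 0)

/-- Step PL2: there is a local functional equation all of whose roots are roots of all local
functional equations. -/
def StPL2 : Prop := ∀ {σ ι : Type} [Fintype σ] [Fintype ι] [DecidableEq σ] [DecidableEq ι]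
  (f : ι → MvPolynomial σ ℂ), (∃ j, f j ≠ 0) → ∀ P : σ → ℂ,
  ∃ (H : MvPolynomial σ ℂ) (b : Polynomial ℂ), b ≠ 0 ∧ IsLocEq H f b ∧ eval P H ≠ 0 ∧
    ∀ α, b.eval α = 0 → SF f P α

/-- Step PL3: the set where `H` does not vanish is open, although `φ` is not continuous (choose a
`ℚ_p`-linear functional on `ℂ` which does not vanish at `H(φ P)` and apply it to the coefficients). -/
def StOpen : Prop := ∀ (p : ℕ) [Fact p.Prime] (φ : ℚ_[p] →+* ℂ) {σ : Type} [Fintype σ]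
  (H : MvPolynomial σ ℂ) (P : σ → ℚ_[p]), eval (fun i => φ (P i)) H ≠ 0 →
  ∀ᶠ x : σ → ℚ_[p] in 𝓝 P, eval (fun i => φ (x i)) H ≠ 0

/-- Step PL4: families in two variables. -/
def StPlane : Prop := ∀ (p : ℕ) [Fact p.Prime] (φ : ℚ_[p] →+* ℂ) {r : ℕ}
  (f : Fin r → MvPolynomial (Fin 2) ℚ_[p]), (∃ j, f j ≠ 0) → ∀ P, LPF φ f P

/-- Step D1: isometries of balls. -/
def StIso : Prop := ∀ (p : ℕ) [Fact p.Prime] {σ : Type} [Fintype σ]
  (G : (σ → ℚ_[p]) → σ → ℚ_[p]) (P : σ → ℚ_[p]) (r : ℝ), 0 < r → G P = P →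
  (∀ x ∈ Metric.closedBall P r, ∀ y ∈ Metric.closedBall P r, ‖G x - G y‖ = ‖x - y‖) →
  G '' Metric.closedBall P r = Metric.closedBall P r ∧
  ∀ V, V ⊆ Metric.closedBall P r → CO V → CO (G '' V) ∧
    ∀ F : (σ → ℚ_[p]) → ℝ≥0∞, Measurable F →
      ∫⁻ x in V, F (G x) ∂(muE p σ) = ∫⁻ y in G '' V, F y ∂(muE p σ)

/-- Step D2: linear maps. -/
def StLin : Prop := ∀ (p : ℕ) [Fact p.Prime] {σ : Type} [Fintype σ]
  (A : (σ → ℚ_[p]) ≃L[ℚ_[p]] (σ → ℚ_[p])), ∃ κ : ℝ≥0∞, κ ≠ 0 ∧ κ ≠ ⊤ ∧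
  ∀ F : (σ → ℚ_[p]) → ℝ≥0∞, Measurable F →
    ∫⁻ x, F (A x) ∂(muE p σ) = κ * ∫⁻ y, F y ∂(muE p σ)

/-- Step D3: a full system of local coordinates (write `Φ` near `P` as the composition of `A` with an
isometry of a small ball around `P`; use D1, D2). -/
def StDiffN : Prop := ∀ (p : ℕ) [Fact p.Prime] {σ : Type} [Fintype σ]
  (Φ : (σ → ℚ_[p]) → σ → ℚ_[p]) (A : (σ → ℚ_[p]) ≃L[ℚ_[p]] (σ → ℚ_[p])) (P : σ → ℚ_[p])
  (h h' : (σ → ℚ_[p]) → ℝ) (m : ℂ → ℕ∞), Siz h' →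
  HasStrictFDerivAt Φ (A : (σ → ℚ_[p]) →L[ℚ_[p]] (σ → ℚ_[p])) P →
  (∀ᶠ x in 𝓝 P, h x = h' (Φ x)) → LP m h' (Φ P) → LP m h P

/-- Step D4: variables which do not occur. -/
def StFree : Prop := ∀ (p : ℕ) [Fact p.Prime] {σ : Type} [Fintype σ] (c : ℕ) (s : Fin c → σ),
  Function.Injective s → ∀ (h' : (Fin c → ℚ_[p]) → ℝ) (m : ℂ → ℕ∞) (P : σ → ℚ_[p]), Siz h' →
  LP m h' (fun t => P (s t)) → LP m (fun x => h' fun t => x (s t)) P

/-- Step D5: local coordinates (complete them; use D3, D4). -/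
def StDiff : Prop := ∀ (p : ℕ) [Fact p.Prime] {σ : Type} [Fintype σ] [DecidableEq σ] (c : ℕ)
  (g : Fin c → (σ → ℚ_[p]) → ℚ_[p]) (L : Fin c → (σ → ℚ_[p]) →L[ℚ_[p]] ℚ_[p]) (s : Fin c → σ)
  (h : (σ → ℚ_[p]) → ℝ) (h' : (Fin c → ℚ_[p]) → ℝ) (P : σ → ℚ_[p]) (m : ℂ → ℕ∞), Siz h' →
  (∀ t, HasStrictFDerivAt (g t) (L t) P) →
  (Matrix.of fun u t => L t (Pi.single (s u) 1)).det ≠ 0 →
  (∀ᶠ x in 𝓝 P, h x = h' fun t => g t x) → LP m h' (fun t => g t P) → LP m h P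

/-- Step E: the derivative of a polynomial function. -/
def StEval : Prop := ∀ (p : ℕ) [Fact p.Prime] {σ : Type} [Fintype σ]
  (f : MvPolynomial σ ℚ_[p]) (P : σ → ℚ_[p]),
  HasStrictFDerivAt (fun x : σ → ℚ_[p] => eval x f)
    (∑ i, eval P (pderiv i f) • (ContinuousLinearMap.proj i : (σ → ℚ_[p]) →L[ℚ_[p]] ℚ_[p])) P

/-- Step G1: it is enough to consider balls. -/
def StBall : Prop := ∀ (p : ℕ) [Fact p.Prime] {σ : Type} [Fintype σ] (h : (σ → ℚ_[p]) → ℝ),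
  Siz h → ∀ (m : ℂ → ℕ∞) (U : Set (σ → ℚ_[p])), IsOpen U →
  (∀ (a : σ → ℚ_[p]) (k : ℤ), Metric.closedBall a ((p : ℝ) ^ k) ⊆ U →
    FR p m (IZ h (Metric.closedBall a ((p : ℝ) ^ k)))) →
  ∀ V, V ⊆ U → CO V → FR p m (IZ h V)

/-- Step G2: compact open sets. -/
def StGlue : Prop := ∀ (p : ℕ) [Fact p.Prime] {σ : Type} [Fintype σ] (h : (σ → ℚ_[p]) → ℝ),
  Siz h → ∀ (m : ℂ → ℕ∞) (V : Set (σ → ℚ_[p])), CO V → (∀ P ∈ V, LP m h P) → FR p m (IZ h V)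

/-- Step G3: points where `h` does not vanish. -/
def StUnit : Prop := ∀ (p : ℕ) [Fact p.Prime] {σ : Type} [Fintype σ] (h : (σ → ℚ_[p]) → ℝ),
  Siz h → ∀ (m : ℂ → ℕ∞) (P : σ → ℚ_[p]), h P ≠ 0 → LP m h P

/-- Step G4: a constant factor. -/
def StScale : Prop := ∀ (p : ℕ) [Fact p.Prime] {σ : Type} [Fintype σ] (h : (σ → ℚ_[p]) → ℝ),
  Siz h → ∀ (m : ℂ → ℕ∞) (P : σ → ℚ_[p]) (a : ℚ_[p]), a ≠ 0 → LP m h P →
  LP m (fun x => ‖a‖ * h x) P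

/-- Step G5: the integrals over polydiscs in the earlier libraries. -/
def StFF : Prop := ∀ (p : ℕ) [Fact p.Prime] {σ ι : Type} [Fintype σ] [Fintype ι]
  (f : ι → MvPolynomial σ ℚ_[p]) (m : ℂ → ℕ∞), (∀ P, LP m (nrm f) P) →
  ∀ c : σ → ℚ_[p], (∀ i, c i ≠ 0) → FR p m (FF (scl c f))

/-- Step M1: products in disjoint variables. -/
def StMul : Prop := ∀ (p : ℕ) [Fact p.Prime] {n n' : ℕ} (h1 : (Fin n → ℚ_[p]) → ℝ)
  (h2 : (Fin n' → ℚ_[p]) → ℝ) (P : Fin (n + n') → ℚ_[p]) (m1 m2 m3 : ℂ → ℕ∞), Siz h1 → Siz h2 →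
  (∀ T, 1 < ‖T‖ → m1 T + m2 T ≤ m3 T) → LP m1 h1 (fun i => P (Fin.castAdd n' i)) →
  LP m2 h2 (fun i => P (Fin.natAdd n i)) →
  LP m3 (fun x => h1 (fun i => x (Fin.castAdd n' i)) * h2 (fun i => x (Fin.natAdd n i))) P

/-- Step M2: sums of ideals in disjoint variables. -/
def StMax : Prop := ∀ (p : ℕ) [Fact p.Prime] {n n' : ℕ} (h1 : (Fin n → ℚ_[p]) → ℝ)
  (h2 : (Fin n' → ℚ_[p]) → ℝ) (P : Fin (n + n') → ℚ_[p]) (m1 m2 m3 : ℂ → ℕ∞), Siz h1 → Siz h2 →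
  (∀ T1 T2 : ℂ, 1 < ‖T1‖ → 1 < ‖T2‖ → ∀ a b : ℕ, 1 ≤ a → 1 ≤ b →
    (a : ℕ∞) ≤ m1 T1 → (b : ℕ∞) ≤ m2 T2 → ((a + b - 1 : ℕ) : ℕ∞) ≤ m3 (T1 * T2)) →
  LP m1 h1 (fun i => P (Fin.castAdd n' i)) → LP m2 h2 (fun i => P (Fin.natAdd n i)) →
  LP m3 (fun x => max (h1 (fun i => x (Fin.castAdd n' i))) (h2 (fun i => x (Fin.natAdd n i)))) P

/-- Step C: forms of degree `d` in the variables in `T`. -/
def StCone : Prop := ∀ (p : ℕ) [Fact p.Prime] {σ : Type} [Fintype σ] [DecidableEq σ]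
  (T : Finset σ), T.Nonempty → ∀ d : ℕ, 0 < d → ∀ h : (σ → ℚ_[p]) → ℝ, Siz h →
  (∀ (a : ℚ_[p]) (x : σ → ℚ_[p]), h (fun i => if i ∈ T then a * x i else x i) = ‖a‖ ^ d * h x) →
  ∀ m m' : ℂ → ℕ∞,
  (∀ T0 : ℂ, 1 < ‖T0‖ → (if T0 ^ d = (p : ℂ) ^ T.card then 1 else 0) + m T0 ≤ m' T0) →
  (∀ P : σ → ℚ_[p], P ≠ 0 → (∀ i ∉ T, P i = 0) → LP m h P) → LP m' h 0

/-- The data of a surface `f i0 = 0` of degree two and of rational coordinates `x_0 v`, `x_1 v` on it,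
`v = 1 / (1 + ρ x_2)`. -/
structure AlgData {K : Type} [Field K] {r : ℕ} (f : Fin r → MvPolynomial (Fin 3) K) (i0 : Fin r)
    (ρ : K) (D : MvPolynomial (Fin 2) K) (e : ℕ) (h : Fin r → MvPolynomial (Fin 2) K)
    (G : Fin r → MvPolynomial (Fin 4) K) : Prop where
  hD : constantCoeff D ≠ 0
  h0 : h i0 = 0
  eq : ∀ (R : Type) [CommRing R] (ψ : K →+* R) (y : Fin 3 → R) (v : R), (1 + ψ ρ * y 2) * v = 1 →
    ∀ j, (D.eval₂ ψ ![y 0 * v, y 1 * v]) ^ e * (f j).eval₂ ψ y =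
      (h j).eval₂ ψ ![y 0 * v, y 1 * v] +
        (f i0).eval₂ ψ y * (G j).eval₂ ψ ![y 0, y 1, y 2, v]

/-- the remaining equations in the two rational coordinates -/
noncomputable def rem {K : Type} [Field K] {r : ℕ} (f : Fin r → MvPolynomial (Fin 3) K)
    (j1 : Fin r) (D : MvPolynomial (Fin 2) K) (e : ℕ) (h : Fin r → MvPolynomial (Fin 2) K)
    (j : Fin r) : MvPolynomial (Fin 2) K :=
  C ((constantCoeff D ^ e)⁻¹) *
    (h j - C (coeff (Finsupp.single 2 1) (f j) / coeff (Finsupp.single 2 1) (f j1)) * h j1)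

/-- Step Q1: the equation of a surface of degree two and rational coordinates. -/
def StAlg : Prop := ∀ (K : Type) [Field K] {r : ℕ} (f : Fin r → MvPolynomial (Fin 3) K)
  (i0 : Fin r), constantCoeff (f i0) = 0 → (f i0).totalDegree ≤ 2 →
  coeff (Finsupp.single 2 1) (f i0) ≠ 0 → ∃ ρ D e h G, AlgData f i0 ρ D e h G

/-- Step Q2: the norm of the family near the point. -/
def StNorm : Prop := ∀ (p : ℕ) [Fact p.Prime] {r : ℕ} (f : Fin r → MvPolynomial (Fin 3) ℚ_[p])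
  (i0 j1 : Fin r) (ρ : ℚ_[p]) (D : MvPolynomial (Fin 2) ℚ_[p]) (e : ℕ)
  (h : Fin r → MvPolynomial (Fin 2) ℚ_[p]) (G : Fin r → MvPolynomial (Fin 4) ℚ_[p]),
  AlgData f i0 ρ D e h G → (∀ j, constantCoeff (f j) = 0) →
  coeff (Finsupp.single 2 1) (f i0) ≠ 0 →
  (∀ j, ‖coeff (Finsupp.single 2 1) (f j)‖ ≤ ‖coeff (Finsupp.single 2 1) (f j1)‖) →
  ∀ᶠ y : Fin 3 → ℚ_[p] in 𝓝 0, nrm f y = max ‖eval y (f j1)‖
    (nrm (rem f j1 D e h) ![y 0 * (1 + ρ * y 2)⁻¹, y 1 * (1 + ρ * y 2)⁻¹])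

/-- Step Q3: the roots. -/
def StRootQ : Prop := ∀ {K : Type} [Field K] (φ : K →+* ℂ) {r : ℕ}
  (f : Fin r → MvPolynomial (Fin 3) K) (i0 j1 : Fin r) (ρ : K) (D : MvPolynomial (Fin 2) K) (e : ℕ)
  (h : Fin r → MvPolynomial (Fin 2) K) (G : Fin r → MvPolynomial (Fin 4) K),
  AlgData f i0 ρ D e h G → (∀ j, constantCoeff (f j) = 0) →
  coeff (Finsupp.single 2 1) (f i0) ≠ 0 → coeff (Finsupp.single 2 1) (f j1) ≠ 0 →
  ((∀ j, rem f j1 D e h j = 0) → SF (fun j => map φ (f j)) 0 (-1)) ∧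
  ((∃ j, rem f j1 D e h j ≠ 0) → ∀ β, SF (fun j => map φ (rem f j1 D e h j)) 0 β →
    SF (fun j => map φ (f j)) 0 (-1 + β))

/-- Step Q4: one variable. -/
def StX1 : Prop := ∀ (p : ℕ) [Fact p.Prime],
  LP (fun T => if T = (p : ℂ) then 1 else 0) (fun x : Fin 1 → ℚ_[p] => ‖x 0‖) 0

/-- Step Q5: smooth points of a surface of degree two which contains the zeros of all `f_j`. -/
def StSmooth : Prop := ∀ (p : ℕ) [Fact p.Prime] (φ : ℚ_[p] →+* ℂ) {r : ℕ}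
  (f : Fin r → MvPolynomial (Fin 3) ℚ_[p]) (P : Fin 3 → ℚ_[p]) (i0 : Fin r) (i : Fin 3),
  (∀ j, eval P (f j) = 0) → (f i0).totalDegree ≤ 2 → eval P (pderiv i (f i0)) ≠ 0 → LPF φ f P

/-- Step F1: linear systems of singular conics. -/
def StConics : Prop := ∀ (K : Type) [Field K] [CharZero K] {r : ℕ}
  (A : Fin r → Matrix (Fin 3) (Fin 3) K), (∀ j, (A j).IsSymm) →
  (∃ lam : Fin r → K, (∑ j, lam j • A j).det ≠ 0) ∨
  (∃ v : Fin 3 → K, v ≠ 0 ∧ ∀ j, (A j).mulVec v = 0) ∨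
  (∃ (x : Fin 3 → K) (L : Fin r → Fin 3 → K), x ≠ 0 ∧
    ∀ j, A j = Matrix.vecMulVec x (L j) + Matrix.vecMulVec (L j) x)

/-- Step F2: ternary forms such that `-3/d` is a root. -/
def StForm3 : Prop := ∀ (p : ℕ) [Fact p.Prime] (φ : ℚ_[p] →+* ℂ) {r : ℕ}
  (f : Fin r → MvPolynomial (Fin 3) ℚ_[p]) (d : ℕ), 0 < d → (∃ j, f j ≠ 0) →
  (∀ j, (f j).IsHomogeneous d) → SF (fun j => map φ (f j)) 0 (-3 / (d : ℂ)) → LPF φ f 0

/-- Step F3: quadratic forms in three variables. -/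
def StForms : Prop := ∀ (p : ℕ) [Fact p.Prime] (φ : ℚ_[p] →+* ℂ) {r : ℕ}
  (f : Fin r → MvPolynomial (Fin 3) ℚ_[p]), (∃ j, f j ≠ 0) → (∀ j, (f j).IsHomogeneous 2) →
  LPF φ f 0

/-- Step F4: a form of degree two with a regular matrix has only the trivial relations between its
derivatives. -/
def StHess : Prop := ∀ {σ : Type} [Fintype σ] [DecidableEq σ] (F : MvPolynomial σ ℂ),
  F.IsHomogeneous 2 → (Matrix.of fun s t => coeff 0 (pderiv s (pderiv t F))).det ≠ 0 →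
  Pool.Agent.Q57.MD.OnlyTrivial Finset.univ F

/-- Step F5: affine changes of coordinates. -/
def StAff : Prop := ∀ (p : ℕ) [Fact p.Prime] (φ : ℚ_[p] →+* ℂ) {r n : ℕ}
  (f : Fin r → MvPolynomial (Fin n) ℚ_[p]) (P : Fin n → ℚ_[p]) (M : Matrix (Fin n) (Fin n) ℚ_[p]),
  M.det ≠ 0 → (∃ j, f j ≠ 0) →
  LPF φ (fun j => aeval (fun i => C (P i) + ∑ k, C (M i k) * X k :
    Fin n → MvPolynomial (Fin n) ℚ_[p]) (f j)) 0 → LPF φ f P

end Pool.Agent.Q57.QP
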