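import Pool.Agent.Y230.TH.Defs
import Pool.Agent.Q57.MD.Defs

set_option autoImplicit false

/-! # The classes of ideals generated from the ideals of the plane and from systems of quadrics in
three variables -/

namespace Pool.Agent.Q57.QP

open MvPolynomial Pool.Agent.Y230.PS Pool.Agent.Y230.TH
open Pool.Agent.Q57.MD (OnlyTrivial)

/-- `f_1, …, f_r` are polynomials in three variables, not all zero, and either all of them have a
total degree at most `2`, or every common zero `P ∈ ℂ³` of the `f_j` is a smooth point of a surface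
`f_j = 0` whose equation has a total degree at most `2` (the degrees of the other `f_j` are
arbitrary). -/
def QuadSys {r : ℕ} (f : Fin r → MvPolynomial (Fin 3) ℚ) : Prop :=
  (∃ j, f j ≠ 0) ∧
    ((∀ j, (f j).totalDegree ≤ 2) ∨
      ∀ P : Fin 3 → ℂ, (∀ j, aeval P (f j) = 0) →
        ∃ j i, (f j).totalDegree ≤ 2 ∧ aeval P (pderiv i (f j)) ≠ 0)

/-- The smallest class of families of polynomials (of the ideals which they generate) with the
following properties. -/
inductive GQ : FamQ → Prop
  /-- a nonzero ideal of `ℚ[x, y]` -/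
  | plane (r : ℕ) (f : Fin r → MvPolynomial (Fin 2) ℚ) (hf : ∃ j, f j ≠ 0) : GQ ⟨Fin 2, Fin r, f⟩
  /-- polynomials of degree at most two in three variables, and the ideals of subschemes of smooth
  quadric surfaces -/
  | quad (r : ℕ) (f : Fin r → MvPolynomial (Fin 3) ℚ) (hf : QuadSys f) : GQ ⟨Fin 3, Fin r, f⟩
  /-- quadratic forms in four variables, not all zero -/
  | quad4 (r : ℕ) (f : Fin r → MvPolynomial (Fin 4) ℚ) (hf : ∃ j, f j ≠ 0)
      (h : ∀ j, (f j).IsHomogeneous 2) : GQ ⟨Fin 4, Fin r, f⟩
  /-- the unit ideal -/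
  | free (A : FamQ) (g : A.ι → MvPolynomial A.σ ℚ) (h : ∑ j, g j * A.f j = 1) : GQ A
  /-- the sum of two ideals in disjoint sets of variables -/
  | sum (A B : FamQ) (hA : GQ A) (hB : GQ B) : GQ (A.sum B)
  /-- the product of two ideals in disjoint sets of variables -/
  | mul (A B : FamQ) (hA : GQ A) (hB : GQ B) : GQ (A.mul B)
  /-- the variables and the generators may be indexed differently -/
  | equiv (A B : FamQ) (i : A.σ ≃ B.σ) (k : A.ι ≃ B.ι) (h : ∀ j, B.f (k j) = rename i (A.f j))
      (hA : GQ A) : GQ B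
  /-- forms of degree `d > 0` in `x_0, ..., x_n` such that the ideals of the charts `x_i = 1` are in
  the class, if `n + 1` of the forms are algebraically independent (their Jacobian determinant is not
  zero), or if `d ≥ 2` and there are only the trivial relations between the derivatives of some
  `F = ∑ λ_j f_j` (the origin is an isolated singularity of `F`) -/
  | cone (n r d : ℕ) (hd : 0 < d) (f : Fin r → MvPolynomial (Fin (n + 1)) ℚ)
      (hf : ∀ j, (f j).IsHomogeneous d)
      (he : (∃ e : Fin (n + 1) → Fin r, (Matrix.of fun s t => pderiv s (f (e t))).det ≠ 0) ∨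
        (∃ lam : Fin r → ℂ, 2 ≤ d ∧ ∑ j, C (lam j) * map (algebraMap ℚ ℂ) (f j) ≠ 0 ∧
          OnlyTrivial Finset.univ (∑ j, C (lam j) * map (algebraMap ℚ ℂ) (f j))))
      (h : ∀ i, GQ ⟨Fin n, Fin r, fun j => dehQ i (f j)⟩) : GQ ⟨Fin (n + 1), Fin r, f⟩

/-- The classes of ideals (`false`) and of hypersurfaces (`true`): the smallest classes with the
following properties. -/
inductive QTS : Bool → FamQ → Prop
  /-- the ideals in `GQ` -/
  | good (A : FamQ) (h : GQ A) : QTS false A
  /-- the plane curves -/
  | curve (g : MvPolynomial (Fin 2) ℚ) (hg : g ≠ 0) : QTS true ⟨Fin 2, Fin 1, fun _ => g⟩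
  /-- a hypersurface is a principal ideal -/
  | hyp (A : FamQ) (h : QTS true A) : QTS false A
  /-- the sum of two ideals in disjoint sets of variables -/
  | sum (A B : FamQ) (hA : QTS false A) (hB : QTS false B) : QTS false (A.sum B)
  /-- the product of two ideals, or of two polynomials, in disjoint sets of variables -/
  | mul (c : Bool) (A B : FamQ) (hA : QTS c A) (hB : QTS c B) : QTS c (A.mul B)
  /-- the polynomial `∑ y_j f_j(x)` -/
  | univ (A : FamQ) (hA : QTS false A) : QTS true A.univ
  /-- the Thom-Sebastiani sum `∑ y_j f_j(x) + g(z)` -/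
  | ts (A : FamQ) (τ : Type) [Fintype τ] (g : MvPolynomial τ ℚ) (hA : QTS false A)
      (hg : QTS true ⟨τ, Fin 1, fun _ => g⟩) : QTS true (tsum A τ g)
  /-- variables which do not occur may be dropped -/
  | drop (σ κ : Type) [Fintype σ] [Fintype κ] (g : MvPolynomial σ ℚ)
      (h : QTS true ⟨σ ⊕ κ, Fin 1, fun _ => rename Sum.inl g⟩) : QTS true ⟨σ, Fin 1, fun _ => g⟩
  /-- the variables and the generators may be indexed differently -/
  | equiv (c : Bool) (A B : FamQ) (i : A.σ ≃ B.σ) (k : A.ι ≃ B.ι)
      (h : ∀ j, B.f (k j) = rename i (A.f j)) (hA : QTS c A) : QTS c B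

end Pool.Agent.Q57.QP
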