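import Pool.Agent.Q57.QP.Stm
import Pool.Agent.Q57.QP.Defs

set_option autoImplicit false
set_option linter.unusedSectionVars false
set_option linter.unusedVariables false

/-! # Basic facts and the systems of quadrics in three variables -/

namespace Pool.Agent.Q57.QP

open MeasureTheory MvPolynomial Topology
open Pool.Agent.W427.SMC Pool.Agent.Y230.PT Pool.Agent.Y230.PS
open Pool.Agent.Y229 (SF IsLocalBI)
open Pool.Agent.Q57.MC (sf_forced)
open Pool.Agent.W574.RO (Forced)
open scoped ENNReal

attribute [local instance] msK bsK msZ bsZ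

variable {p : ℕ} [Fact p.Prime]

section

variable {σ ι : Type} [Fintype σ] [Fintype ι]

theorem siz_nrm (f : ι → MvPolynomial σ ℚ_[p]) : Siz (nrm f) where
  cont := by
    unfold nrm
    exact continuous_norm.comp (continuous_pi fun j => MvPolynomial.continuous_eval _)
  val x := by
    unfold nrm
    rcases isEmpty_or_nonempty ι with hι | hι
    · left
      rw [Subsingleton.elim (fun j => eval x (f j)) 0, norm_zero]
    · obtain ⟨j, hj⟩ := norm_attained (fun j => eval x (f j))
      rw [hj]
      rcases eq_or_ne (eval x (f j)) 0 with h0 | h0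
      · left
        rw [h0, norm_zero]
      · right
        exact ⟨-(eval x (f j)).valuation, Padic.norm_eq_zpow_neg_valuation h0⟩

theorem nrm_eq_zero (f : ι → MvPolynomial σ ℚ_[p]) (x : σ → ℚ_[p]) :
    nrm f x = 0 ↔ ∀ j, eval x (f j) = 0 := by
  unfold nrm
  rw [norm_eq_zero]
  exact funext_iff

theorem LP.mono {m m' : ℂ → ℕ∞} {h : (σ → ℚ_[p]) → ℝ} {P : σ → ℚ_[p]} (H : LP m h P)
    (hm : ∀ T, 1 < ‖T‖ → m T ≤ m' T) : LP m' h P := by
  obtain ⟨U, h1, h2, h3⟩ := H
  exact ⟨U, h1, h2, fun V hV hc => (h3 V hV hc).mono hm⟩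

theorem mS_le (φ : ℚ_[p] →+* ℂ) (f : ι → MvPolynomial σ ℚ_[p]) (P : σ → ℚ_[p]) (m : ℂ → ℕ∞)
    (T : ℂ) (h : SF (fun j => map φ (f j)) (fun i => φ (P i)) ((rr p T : ℝ) : ℂ) → m T = ⊤) :
    mS φ f P T ≤ m T := by
  classical
  unfold mS
  split_ifs with h1
  · rw [h h1]
  · exact bot_le

end

theorem totalDegree_trans {K : Type} [Field K] {n : ℕ} (P : Fin n → K)
    (g : MvPolynomial (Fin n) K) :
    (aeval (fun i => C (P i) + X i : Fin n → MvPolynomial (Fin n) K) g).totalDegree ≤
      g.totalDegree := by
  classical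
  rw [aeval_def, eval₂_eq]
  refine (totalDegree_finsetSum _ _).trans (Finset.sup_le fun d hd => ?_)
  refine (totalDegree_mul _ _).trans ?_
  have h1 : (algebraMap K (MvPolynomial (Fin n) K) (coeff d g)).totalDegree = 0 := totalDegree_C _
  rw [h1, zero_add]
  refine (totalDegree_finsetProd _ _).trans ?_
  refine le_trans (Finset.sum_le_sum (g := fun i => d i) fun i _ => ?_) ?_
  · refine (totalDegree_pow _ _).trans ?_
    have h2 : (C (P i) + X i : MvPolynomial (Fin n) K).totalDegree ≤ 1 := by
      refine (totalDegree_add _ _).trans (max_le ?_ ?_)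
      · rw [totalDegree_C]
        exact zero_le_one
      · rw [totalDegree_X]
    calc d i * _ ≤ d i * 1 := Nat.mul_le_mul_left _ h2
      _ = d i := mul_one _
  · exact le_totalDegree hd

theorem pderiv_trans {K : Type} [Field K] {n : ℕ} (P : Fin n → K) (k : Fin n)
    (g : MvPolynomial (Fin n) K) :
    pderiv k (aeval (fun i => C (P i) + X i : Fin n → MvPolynomial (Fin n) K) g) =
      aeval (fun i => C (P i) + X i : Fin n → MvPolynomial (Fin n) K) (pderiv k g) := by
  classical
  induction g using MvPolynomial.induction_on with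
  | C a =>
    rw [pderiv_C, map_zero, algHom_C]
    exact pderiv_C
  | add f g hf hg => rw [map_add, map_add, hf, hg, map_add, map_add]
  | mul_X f i hf =>
    rw [map_mul, aeval_X, Derivation.leibniz, Derivation.leibniz, smul_eq_mul, smul_eq_mul,
      smul_eq_mul, smul_eq_mul, hf, map_add, map_add, map_mul, map_mul, aeval_X, pderiv_C, zero_add]
    congr 2
    by_cases h : i = k
    · subst h
      rw [pderiv_X_self, map_one]
    · rw [pderiv_X_of_ne h, map_zero]

theorem homog_of {K : Type} [Field K] {n : ℕ} (g : MvPolynomial (Fin n) K)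
    (h2 : g.totalDegree ≤ 2) (h0 : constantCoeff g = 0) (h1 : ∀ k, constantCoeff (pderiv k g) = 0) :
    g.IsHomogeneous 2 := by
  classical
  intro m hm
  have hw : (Finsupp.weight 1) m = m.degree :=
    (DFunLike.congr_fun (Finsupp.degree_eq_weight_one (σ := Fin n) (R := ℕ)) m).symm
  rw [hw]
  have h3 : m.degree ≤ 2 := le_trans (le_totalDegree (mem_support_iff.2 hm)) h2
  have h4 : m.degree ≠ 0 := by
    intro h
    rw [Finsupp.degree_eq_zero_iff] at h
    subst h
    exact hm h0
  have h5 : m.degree ≠ 1 := by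
    intro h
    obtain ⟨k, hk⟩ := (Finsupp.sum_eq_one_iff m).1 h
    apply hm
    have h6 := h1 k
    rw [constantCoeff_eq, coeff_pderiv] at h6
    rw [hk]
    simpa using h6
  have h7 : m.degree = m.sum fun _ a => a := rfl
  omega

/-- translation of polynomials of degree at most two to a common singular point -/
theorem trans_homog {K : Type} [Field K] {n : ℕ} (P : Fin n → K) (g : MvPolynomial (Fin n) K)
    (h2 : g.totalDegree ≤ 2) (h0 : eval P g = 0) (h1 : ∀ k, eval P (pderiv k g) = 0) :
    (aeval (fun i => C (P i) + X i : Fin n → MvPolynomial (Fin n) K) g).IsHomogeneous 2 := by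
  have hc : ∀ q : MvPolynomial (Fin n) K, constantCoeff
      (aeval (fun i => C (P i) + X i : Fin n → MvPolynomial (Fin n) K) q) = eval P q := by
    intro q
    have h : (constantCoeff (R := K) (σ := Fin n)).comp
        (aeval (fun i => C (P i) + X i : Fin n → MvPolynomial (Fin n) K)).toRingHom = eval P := by
      apply MvPolynomial.ringHom_ext
      · intro a
        simp
      · intro i
        simp
    exact congrArg (fun ψ : MvPolynomial (Fin n) K →+* K => ψ q) h
  refine homog_of _ ((totalDegree_trans P g).trans h2) ?_ fun k => ?_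
  · rw [hc, h0]
  · rw [pderiv_trans, hc, h1]

end Pool.Agent.Q57.QP
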