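import Pool.Agent.Q57.QP.All0
import Pool.Agent.Q38.QM.R4
import Pool.Agent.Q111.QM.Root
import Pool.Agent.Q208.QM.R1

set_option autoImplicit false

/-! # Quadratic forms in four variables -/

namespace Pool.Agent.Q57.QP

theorem st_q4 : Pool.Agent.Q57.QM.StQ4 :=
  Pool.Agent.Q38.QM.qp_q4 st_diff
    (Pool.Agent.Q57.QPF.qp_free Pool.Agent.Q261.QP.qp_ball)
    Pool.Agent.Q261.QP.qp_scale Pool.Agent.Q261.QP.qp_unit st_cone st_mul st_aff st_x1 st_q3
    (Pool.Agent.Q111.QM.qm_root4 Pool.Agent.Q208.QM.qm_sing4 Pool.Agent.Q162.QP.qp_hess)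

end Pool.Agent.Q57.QP
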