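import Pool.Agent.Q57.QP.All0
import Pool.Agent.Q57.QP.Fin
import Pool.Agent.Q57.QP.Four

set_option autoImplicit false

/-! # All steps -/

namespace Pool.Agent.Q57.QP

theorem all_steps : AllSteps where
  ff := st_ff
  smooth := st_smooth
  forms := st_forms
  aff := st_aff
  unit := Pool.Agent.Q261.QP.qp_unit
  q4 := st_q4

end Pool.Agent.Q57.QP
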