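import Pool.Agent.Q66.QP.Basic
import Pool.Agent.Y230.PS.Cone2

set_option autoImplicit false
set_option linter.unusedSectionVars false

/-! # Forms of degree `d` in some of the variables -/

namespace Pool.Agent.Q66.QP

open MeasureTheory Topology
open Pool.Agent.W427.SMC Pool.Agent.Y230.PT Pool.Agent.Y230.PS Pool.Agent.Q57.QP
open scoped ENNReal

attribute [local instance] msK bsK msZ bsZ

variable {p : ℕ} [Fact p.Prime] {σ : Type} [Fintype σ] [DecidableEq σ]

/-- the part of `x` in the coordinates in `T` -/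
noncomputable def prT (T : Finset σ) (x : σ → ℚ_[p]) : σ → ℚ_[p] := fun i => if i ∈ T then x i else 0

/-- the part of `x` in the coordinates outside of `T` -/
noncomputable def prR (T : Finset σ) (x : σ → ℚ_[p]) : σ → ℚ_[p] := fun i => if i ∈ T then 0 else x i

theorem prT_cont (T : Finset σ) : Continuous (prT (p := p) T) := by
  refine continuous_pi fun i => ?_
  unfold prT
  split_ifs with h
  · exact continuous_apply i
  · exact continuous_const

theorem prR_cont (T : Finset σ) : Continuous (prR (p := p) T) := by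
  refine continuous_pi fun i => ?_
  unfold prR
  split_ifs with h
  · exact continuous_const
  · exact continuous_apply i

theorem prT_add_prR (T : Finset σ) (x : σ → ℚ_[p]) : prT T x + prR T x = x := by
  funext i
  simp only [Pi.add_apply, prT, prR]
  split_ifs with h
  · rw [add_zero]
  · rw [zero_add]

theorem prT_dil (T : Finset σ) (c : ℚ_[p]) (x : σ → ℚ_[p]) : prT T (dil T c x) = c • prT T x := by
  funext i
  simp only [Pi.smul_apply, prT, dil, smul_eq_mul]
  split_ifs with h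
  · rfl
  · rw [mul_zero]

theorem prR_dil (T : Finset σ) (c : ℚ_[p]) (x : σ → ℚ_[p]) : prR T (dil T c x) = prR T x := by
  funext i
  simp only [prR, dil]
  split_ifs with h
  · rfl
  · rfl

theorem prT_sub (T : Finset σ) (x y : σ → ℚ_[p]) : prT T (x - y) = prT T x - prT T y := by
  funext i
  simp only [Pi.sub_apply, prT]
  split_ifs with h
  · rfl
  · rw [sub_zero]

theorem prR_sub (T : Finset σ) (x y : σ → ℚ_[p]) : prR T (x - y) = prR T x - prR T y := by
  funext i
  simp only [Pi.sub_apply, prR]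
  split_ifs with h
  · rw [sub_zero]
  · rfl

theorem norm_prT_le (T : Finset σ) (x : σ → ℚ_[p]) : ‖prT T x‖ ≤ ‖x‖ := by
  refine (pi_norm_le_iff_of_nonneg (norm_nonneg _)).2 fun i => ?_
  unfold prT
  split_ifs with h
  · exact norm_le_pi_norm x i
  · rw [norm_zero]; exact norm_nonneg _

theorem norm_prR_le (T : Finset σ) (x : σ → ℚ_[p]) : ‖prR T x‖ ≤ ‖x‖ := by
  refine (pi_norm_le_iff_of_nonneg (norm_nonneg _)).2 fun i => ?_
  unfold prR
  split_ifs with h
  · rw [norm_zero]; exact norm_nonneg _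
  · exact norm_le_pi_norm x i

theorem norm_le_iff_pr (T : Finset σ) (x : σ → ℚ_[p]) (r : ℝ) :
    ‖x‖ ≤ r ↔ ‖prT T x‖ ≤ r ∧ ‖prR T x‖ ≤ r := by
  constructor
  · intro h
    exact ⟨(norm_prT_le T x).trans h, (norm_prR_le T x).trans h⟩
  · rintro ⟨h1, h2⟩
    have hr : 0 ≤ r := (norm_nonneg _).trans h1
    refine (pi_norm_le_iff_of_nonneg hr).2 fun i => ?_
    by_cases hi : i ∈ T
    · have h3 := norm_le_pi_norm (prT T x) i
      unfold prT at h3
      rw [if_pos hi] at h3
      exact h3.trans h1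
    · have h3 := norm_le_pi_norm (prR T x) i
      unfold prR at h3
      rw [if_neg hi] at h3
      exact h3.trans h2

/-- a nonzero vector has the norm of a number -/
theorem exists_norm_eq (x : σ → ℚ_[p]) (hx : x ≠ 0) : ∃ c : ℚ_[p], c ≠ 0 ∧ ‖c‖ = ‖x‖ := by
  have hne : Nonempty σ := by
    by_contra hn
    rw [not_nonempty_iff] at hn
    exact hx (Subsingleton.elim _ _)
  obtain ⟨j, hj⟩ := norm_attained x
  refine ⟨x j, ?_, hj.symm⟩
  intro h0
  rw [h0, norm_zero, norm_eq_zero] at hj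
  exact hx hj

/-- the points with integrals of the required kind form an open set -/
theorem lp_open (m : ℂ → ℕ∞) (h : (σ → ℚ_[p]) → ℝ) : IsOpen {P | LP m h P} := by
  rw [isOpen_iff_mem_nhds]
  rintro P ⟨U, hU, hP, hV⟩
  exact Filter.mem_of_superset (hU.mem_nhds hP) fun Q hQ => ⟨U, hU, hQ, hV⟩

theorem fr_const_mul {m : ℂ → ℕ∞} {F : ℝ → ℂ} (c : ℂ) (h : FR p m F) :
    FR p m (fun s => c * F s) := FR.mul0 (fun _ _ => Reg.const c) h

theorem fr_dil (m : ℂ → ℕ∞) {h : (σ → ℚ_[p]) → ℝ} (hh : Siz h) (T : Finset σ) (d : ℕ)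
    (hd : ∀ (a : ℚ_[p]) (x : σ → ℚ_[p]), h (dil T a x) = ‖a‖ ^ d * h x)
    (c : ℚ_[p]) (hc : c ≠ 0) {V : Set (σ → ℚ_[p])} (hV : MeasurableSet V)
    (hF : FR p m (IZ h V)) : FR p m (IZ h (dil T c '' V)) := by
  have h1 : FR p m (fun s => ((N p s c).toReal : ℂ) ^ d * IZ h V s) :=
    FR.mul0 (fun T0 hT0 => (reg_N hT0 c hc).pow d) hF
  refine (fr_const_mul (((N p 1 c) ^ T.card).toReal : ℂ) h1).congr fun s hs => ?_
  rw [izc_dil hh T d hd c hc hV s, mul_assoc]

theorem lp_dil (m : ℂ → ℕ∞) {h : (σ → ℚ_[p]) → ℝ} (hh : Siz h) (T : Finset σ) (d : ℕ)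
    (hd : ∀ (a : ℚ_[p]) (x : σ → ℚ_[p]), h (dil T a x) = ‖a‖ ^ d * h x)
    (c : ℚ_[p]) (hc : c ≠ 0) {P : σ → ℚ_[p]} (hP : LP m h P) : LP m h (dil T c P) := by
  obtain ⟨U, hU, hPU, hV⟩ := hP
  refine ⟨dilH T c hc '' U, (dilH T c hc).isOpenMap U hU, ⟨P, hPU, rfl⟩, fun V hVU hco => ?_⟩
  have h1 : CO (dilH T c hc ⁻¹' V) := by
    refine ⟨?_, hco.2.preimage (dilH T c hc).continuous⟩
    exact (dilH T c hc).isCompact_preimage.2 hco.1
  have h2 : dilH T c hc ⁻¹' V ⊆ U := by
    intro x hx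
    obtain ⟨y, hy, hxy⟩ := hVU hx
    rwa [← (dilH T c hc).injective hxy]
  have h3 := fr_dil m hh T d hd c hc (co_meas h1) (hV _ h2 h1)
  have h4 : dil T c '' (dilH T c hc ⁻¹' V) = V :=
    Set.image_preimage_eq V (dilH T c hc).surjective
  rwa [h4] at h3

theorem qp_cone' (hB : StBall) (hG : StGlue) : StCone := by
  intro p _ σ _ _ T hT d hd h hh hhom m m' hm hLP
  have hpp : (p : ℚ_[p]) ≠ 0 := by exact_mod_cast (Fact.out : p.Prime).ne_zero
  have hp1 : (1 : ℝ) < p := by exact_mod_cast (Fact.out : p.Prime).one_lt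
  have hp0 : (0 : ℝ) < p := by linarith
  have hhd : ∀ (a : ℚ_[p]) (x : σ → ℚ_[p]), h (dil T a x) = ‖a‖ ^ d * h x := hhom
  -- the tube
  have hS : IsCompact {x : σ → ℚ_[p] | ‖prT T x‖ = 1 ∧ prR T x = 0} := by
    refine Metric.isCompact_of_isClosed_isBounded ?_ ?_
    · exact (isClosed_eq (continuous_norm.comp (prT_cont T)) continuous_const).inter
        (isClosed_eq (prR_cont T) continuous_const)
    · refine (Metric.isBounded_closedBall (x := (0 : σ → ℚ_[p])) (r := 1)).subset ?_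
      rintro x ⟨h1, h2⟩
      rw [Metric.mem_closedBall, dist_zero_right, norm_le_iff_pr T]
      exact ⟨h1.le, by rw [h2, norm_zero]; exact zero_le_one⟩
  obtain ⟨ρ, hρ, hρS⟩ := hS.exists_thickening_subset_open (lp_open m h) (by
    rintro x ⟨h1, h2⟩
    refine hLP x ?_ ?_
    · rintro rfl
      have h3 : prT T (0 : σ → ℚ_[p]) = 0 := by
        funext i
        simp [prT]
      rw [h3, norm_zero] at h1
      exact zero_ne_one h1
    · intro i hi
      have h3 := congrFun h2 i
      unfold prR at h3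
      rwa [if_neg hi] at h3)
  -- points outside of the center
  have hpt : ∀ x : σ → ℚ_[p], prT T x ≠ 0 → ‖prR T x‖ < ρ → LP m h x := by
    intro x hx1 hx2
    obtain ⟨c, hc0, hc⟩ := exists_norm_eq _ hx1
    have hci : c⁻¹ ≠ 0 := inv_ne_zero hc0
    have h1 : LP m h (dil T c⁻¹ x) := by
      apply hρS
      rw [Metric.mem_thickening_iff]
      refine ⟨prT T (dil T c⁻¹ x), ⟨?_, ?_⟩, ?_⟩
      · have h2 : prT T (prT T (dil T c⁻¹ x)) = prT T (dil T c⁻¹ x) := by
          funext i
          simp only [prT]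
          split_ifs with h <;> rfl
        rw [h2, prT_dil, norm_smul, norm_inv, hc]
        exact inv_mul_cancel₀ (norm_ne_zero_iff.2 hx1)
      · funext i
        simp only [prT, prR, Pi.zero_apply]
        split_ifs with h <;> rfl
      · rw [dist_eq_norm]
        have h2 : dil T c⁻¹ x - prT T (dil T c⁻¹ x) = prR T x := by
          rw [← prR_dil T c⁻¹ x]
          nth_rewrite 1 [← prT_add_prR T (dil T c⁻¹ x)]
          rw [add_sub_cancel_left]
        rw [h2]
        exact hx2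
    have h2 := lp_dil m hh T d hhd c hc0 h1
    rwa [dil_dil, mul_inv_cancel₀ hc0, dil_one] at h2
  have hsh : ∀ V : Set (σ → ℚ_[p]), CO V → (∀ x ∈ V, prT T x ≠ 0 ∧ ‖prR T x‖ < ρ) →
      FR p m (IZ h V) := fun V hV hx =>
    hG p h hh m V hV fun P hP => hpt P (hx P hP).1 (hx P hP).2
  have hmm : ∀ T0 : ℂ, 1 < ‖T0‖ → m T0 ≤ m' T0 := fun T0 hT0 => le_add_self.trans (hm T0 hT0)
  -- balls
  have hUo : IsOpen {x : σ → ℚ_[p] | ‖prR T x‖ < ρ} :=
    isOpen_lt (continuous_norm.comp (prR_cont T)) continuous_const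
  refine ⟨{x | ‖prR T x‖ < ρ}, hUo, ?_, hB p h hh m' _ hUo ?_⟩
  · have h3 : prR T (0 : σ → ℚ_[p]) = 0 := by
      funext i
      simp [prR]
    rw [Set.mem_ofPred_eq, h3, norm_zero]
    exact hρ
  intro a k hak
  have hpk : 0 < (p : ℝ) ^ k := zpow_pos hp0 k
  have hco : CO (Metric.closedBall a ((p : ℝ) ^ k)) := co_ball a hpk
  by_cases ha : ‖prT T a‖ ≤ (p : ℝ) ^ k
  swap
  · -- far from the center
    push Not at ha
    refine (hsh _ hco fun x hx => ⟨?_, hak hx⟩).mono hmm
    intro h0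
    rw [Metric.mem_closedBall, dist_eq_norm, norm_le_iff_pr T, prT_sub, h0, zero_sub, norm_neg]
      at hx
    exact absurd hx.1 (not_le.2 ha)
  · -- a ball which meets the center
    have hmem : ∀ x, x ∈ Metric.closedBall a ((p : ℝ) ^ k) ↔
        ‖prT T x‖ ≤ (p : ℝ) ^ k ∧ ‖prR T (x - a)‖ ≤ (p : ℝ) ^ k := by
      intro x
      rw [Metric.mem_closedBall, dist_eq_norm, norm_le_iff_pr T]
      refine and_congr_left fun _ => ?_
      rw [prT_sub]
      constructor
      · intro h1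
        have h2 := IsUltrametricDist.norm_add_le_max (prT T x - prT T a) (prT T a)
        rw [sub_add_cancel] at h2
        exact h2.trans (max_le h1 ha)
      · intro h1
        rw [sub_eq_add_neg]
        refine (IsUltrametricDist.norm_add_le_max _ _).trans (max_le h1 ?_)
        rw [norm_neg]
        exact ha
    have hcp : CO (dil T (p : ℚ_[p]) '' Metric.closedBall a ((p : ℝ) ^ k)) :=
      ⟨hco.1.image (dil_cont T _), (dilH T _ hpp).isOpenMap _ hco.2⟩
    have hsub : dil T (p : ℚ_[p]) '' Metric.closedBall a ((p : ℝ) ^ k) ⊆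
        Metric.closedBall a ((p : ℝ) ^ k) := by
      rintro _ ⟨x, hx, rfl⟩
      rw [hmem] at hx ⊢
      refine ⟨?_, ?_⟩
      · rw [prT_dil, norm_smul, Padic.norm_p]
        have h1 : (p : ℝ)⁻¹ ≤ 1 := inv_le_one_of_one_le₀ hp1.le
        calc (p : ℝ)⁻¹ * ‖prT T x‖ ≤ 1 * ‖prT T x‖ :=
              mul_le_mul_of_nonneg_right h1 (norm_nonneg _)
          _ ≤ _ := by rw [one_mul]; exact hx.1
      · rw [prR_sub, prR_dil, ← prR_sub]
        exact hx.2
    have hshell : FR p m (IZ h (Metric.closedBall a ((p : ℝ) ^ k) \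
        dil T (p : ℚ_[p]) '' Metric.closedBall a ((p : ℝ) ^ k))) := by
      refine hsh _ (co_sdiff hco hcp) fun x hx => ⟨?_, hak hx.1⟩
      intro h0
      apply hx.2
      refine ⟨x, hx.1, ?_⟩
      funext i
      have h1 := congrFun h0 i
      unfold prT at h1
      unfold dil
      split_ifs with h
      · rw [if_pos h] at h1
        rw [h1, Pi.zero_apply, mul_zero]
      · rfl
    obtain ⟨n, hn⟩ : ∃ n, T.card = n + 1 := ⟨T.card - 1, by
      have := Finset.card_pos.2 hT
      omega⟩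
    refine (FR.mul (geo_FR (p := p) d n hd) hshell (m3 := m') ?_).congr fun s hs => ?_
    · intro T0 hT0
      rw [← hn]
      exact hm T0 hT0
    · have h1 : IZ h (Metric.closedBall a ((p : ℝ) ^ k)) s =
          IZ h (Metric.closedBall a ((p : ℝ) ^ k) \
            dil T (p : ℚ_[p]) '' Metric.closedBall a ((p : ℝ) ^ k)) s +
          IZ h (dil T (p : ℚ_[p]) '' Metric.closedBall a ((p : ℝ) ^ k)) s := by
        rw [← iz_union hh (co_sdiff hco hcp) hcp Set.disjoint_sdiff_left hs,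
          Set.sdiff_union_of_subset hsub]
      rw [izc_dil hh T d hhd _ hpp (co_meas hco) s, N1_p, N_p] at h1
      have h2 : (((((p : ℝ≥0∞)⁻¹) ^ T.card).toReal : ℝ) : ℂ) = ((qr p : ℝ) : ℂ) ^ (n + 1) := by
        rw [ENNReal.toReal_pow, toReal_pinv, hn]
        push_cast
        rfl
      have h3 : (((Tt p s).toReal : ℝ) : ℂ) = ((tr' p s : ℝ) : ℂ) := by
        rw [Tt_toReal]
      rw [h2, h3] at h1
      set A := IZ h (Metric.closedBall a ((p : ℝ) ^ k)) s with hA
      set S := IZ h (Metric.closedBall a ((p : ℝ) ^ k) \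
            dil T (p : ℚ_[p]) '' Metric.closedBall a ((p : ℝ) ^ k)) s with hS
      have h4 : (1 - ((qr p : ℝ) : ℂ) ^ (n + 1) * ((tr' p s : ℝ) : ℂ) ^ d) ≠ 0 := by
        intro h5
        have h6 : qr p ^ (n + 1) * tr' p s ^ d = 1 := by
          have h7 : ((qr p ^ (n + 1) * tr' p s ^ d : ℝ) : ℂ) = ((1 : ℝ) : ℂ) := by
            push_cast
            linear_combination -h5
          exact_mod_cast h7
        have h8 : qr p ^ (n + 1) < 1 := pow_lt_one₀ qr_pos.le qr_lt_one (Nat.succ_ne_zero n)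
        have h9 : tr' p s ^ d ≤ 1 := pow_le_one₀ (tr'_pos p s).le (tr'_le_one' hs)
        have h10 : 0 < qr p ^ (n + 1) := pow_pos qr_pos _
        have h11 : qr p ^ (n + 1) * tr' p s ^ d ≤ qr p ^ (n + 1) * 1 :=
          mul_le_mul_of_nonneg_left h9 h10.le
        rw [h6, mul_one] at h11
        linarith
      rw [inv_mul_eq_iff_eq_mul₀ h4]
      linear_combination -h1

end Pool.Agent.Q66.QP

namespace Pool.Agent.Q57.QP

theorem qp_cone : StBall → StGlue → StUnit → StCone := fun hB hG _ =>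
  Pool.Agent.Q66.QP.qp_cone' hB hG

end Pool.Agent.Q57.QP
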