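import Pool.Agent.Q66.QP.Basic

set_option autoImplicit false
set_option linter.unusedSectionVars false

/-! # Local coordinates -/

namespace Pool.Agent.Q57.QP

open MeasureTheory Topology
open Pool.Agent.W427.SMC Pool.Agent.Y230.PT Pool.Agent.Y230.PS Pool.Agent.Q66.QP
open scoped ENNReal

attribute [local instance] msK bsK msZ bsZ

theorem qp_diffn : StIso → StLin → StDiffN := by
  intro hI hL p _ σ _ Φ A P h h' m hh' hΦ hev hLP
  obtain ⟨U', hU', hPU', hV'⟩ := hLP
  obtain ⟨κ, hκ0, hκt, hκ⟩ := hL p A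
  -- the isometry
  set G : (σ → ℚ_[p]) → σ → ℚ_[p] := fun x => P + A.symm (Φ x - Φ P) with hG
  set E : (σ → ℚ_[p]) → σ → ℚ_[p] := fun y => Φ P + A (y - P) with hE
  have hEG : ∀ x, E (G x) = Φ x := by
    intro x
    simp only [hE, hG, add_sub_cancel_left, ContinuousLinearEquiv.apply_symm_apply]
    abel
  have hGP : G P = P := by
    simp only [hG, sub_self, map_zero, add_zero]
  have hEP : E P = Φ P := by
    simp only [hE, sub_self, map_zero, add_zero]
  have hEc : Continuous E := by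
    simp only [hE]
    exact continuous_const.add (A.continuous.comp (continuous_id.sub continuous_const))
  -- `E` as a homeomorphism
  obtain ⟨e, he⟩ : ∃ e : (σ → ℚ_[p]) ≃ₜ (σ → ℚ_[p]), ∀ y, e y = E y := by
    refine ⟨((Homeomorph.subRight P).trans A.toHomeomorph).trans (Homeomorph.addLeft (Φ P)),
      fun y => ?_⟩
    rfl
  -- strict differentiability
  have h1 : ∀ᶠ q : (σ → ℚ_[p]) × (σ → ℚ_[p]) in 𝓝 (P, P), q.1 ≠ q.2 →
      ‖G q.1 - G q.2‖ = ‖q.1 - q.2‖ := by
    have hGd : HasStrictFDerivAt G (ContinuousLinearMap.id ℚ_[p] (σ → ℚ_[p])) P := by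
      have h2 : HasStrictFDerivAt (fun x => A.symm (Φ x - Φ P))
          ((A.symm : (σ → ℚ_[p]) →L[ℚ_[p]] (σ → ℚ_[p])).comp
            (A : (σ → ℚ_[p]) →L[ℚ_[p]] (σ → ℚ_[p]))) P :=
        (A.symm : (σ → ℚ_[p]) →L[ℚ_[p]] (σ → ℚ_[p])).hasStrictFDerivAt.comp P
          (hΦ.sub_const (Φ P))
      have h3 : ((A.symm : (σ → ℚ_[p]) →L[ℚ_[p]] (σ → ℚ_[p])).comp
            (A : (σ → ℚ_[p]) →L[ℚ_[p]] (σ → ℚ_[p]))) =
          ContinuousLinearMap.id ℚ_[p] (σ → ℚ_[p]) := by
        ext x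
        simp
      rw [h3] at h2
      exact h2.const_add P
    have h2 := hGd.isLittleO.def (show (0 : ℝ) < 1 / 2 by norm_num)
    filter_upwards [h2] with q hq hne
    have h3 : 0 < ‖q.1 - q.2‖ := norm_pos_iff.2 (sub_ne_zero.2 hne)
    have h4 : ‖(G q.1 - G q.2) - (q.1 - q.2)‖ < ‖q.1 - q.2‖ := by
      refine lt_of_le_of_lt hq ?_
      linarith
    have h5 : ‖(G q.1 - G q.2) + (-(q.1 - q.2))‖ < max ‖G q.1 - G q.2‖ ‖-(q.1 - q.2)‖ := by
      rw [← sub_eq_add_neg, norm_neg]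
      exact lt_max_of_lt_right h4
    have h6 := IsUltrametricDist.norm_eq_of_add_norm_lt_max h5
    rwa [norm_neg] at h6
  -- the radius
  obtain ⟨r1, hr1, hb1⟩ := Metric.eventually_nhds_iff_ball.1 h1
  obtain ⟨r2, hr2, hb2⟩ := Metric.eventually_nhds_iff_ball.1 hev
  obtain ⟨r3, hr3, hb3⟩ := Metric.mem_nhds_iff.1
    (hEc.continuousAt.preimage_mem_nhds (by rw [hEP]; exact hU'.mem_nhds hPU') :
      E ⁻¹' U' ∈ 𝓝 P)
  set r : ℝ := min r1 (min r2 r3) / 2 with hr
  have hr0 : 0 < r := by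
    have := lt_min hr1 (lt_min hr2 hr3)
    positivity
  have hrr : r < min r1 (min r2 r3) := by
    have := lt_min hr1 (lt_min hr2 hr3)
    linarith
  have hr_1 : r < r1 := hrr.trans_le (min_le_left _ _)
  have hr_2 : r < r2 := hrr.trans_le ((min_le_right _ _).trans (min_le_left _ _))
  have hr_3 : r < r3 := hrr.trans_le ((min_le_right _ _).trans (min_le_right _ _))
  have hiso : ∀ x ∈ Metric.closedBall P r, ∀ y ∈ Metric.closedBall P r,
      ‖G x - G y‖ = ‖x - y‖ := by
    intro x hx y hy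
    rcases eq_or_ne x y with rfl | hne
    · simp
    · refine hb1 (x, y) ?_ hne
      rw [← ball_prod_same]
      exact ⟨Metric.closedBall_subset_ball hr_1 hx, Metric.closedBall_subset_ball hr_1 hy⟩
  obtain ⟨hGB, hGV⟩ := hI p G P r hr0 hGP hiso
  refine ⟨Metric.closedBall P r, (co_ball P hr0).2, Metric.mem_closedBall_self hr0.le,
    fun V hVB hVc => ?_⟩
  obtain ⟨hGVc, hint⟩ := hGV V hVB hVc
  -- the image
  have hWc : CO (e '' (G '' V)) := ⟨hGVc.1.image e.continuous, e.isOpenMap _ hGVc.2⟩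
  have hWU : e '' (G '' V) ⊆ U' := by
    rintro _ ⟨y, hy, rfl⟩
    have h2 : y ∈ Metric.closedBall P r := by
      rw [← hGB]
      exact Set.image_mono hVB hy
    rw [he]
    exact hb3 (Metric.closedBall_subset_ball hr_3 h2)
  refine (FR.mul0 (fun _ _ => Reg.const (κ.toReal : ℂ)) (hV' _ hWU hWc)).congr fun s hs => ?_
  -- the integral
  have hm1 : Measurable (fun y => ENNReal.ofReal (h' (E y) ^ s)) :=
    (siz_meas hh' s).comp hEc.measurable
  have e1 : ∫⁻ x in V, ENNReal.ofReal (h x ^ s) ∂(muE p σ) =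
      ∫⁻ x in V, (fun y => ENNReal.ofReal (h' (E y) ^ s)) (G x) ∂(muE p σ) := by
    refine setLIntegral_congr_fun (co_meas hVc) fun x hx => ?_
    have h2 : h x = h' (Φ x) := hb2 x (Metric.closedBall_subset_ball hr_2 (hVB hx))
    simp only [h2, hEG]
  have e2 : ∫⁻ x in V, (fun y => ENNReal.ofReal (h' (E y) ^ s)) (G x) ∂(muE p σ) =
      ∫⁻ y in G '' V, ENNReal.ofReal (h' (E y) ^ s) ∂(muE p σ) := hint _ hm1
  have e3 : ∫⁻ y in G '' V, ENNReal.ofReal (h' (E y) ^ s) ∂(muE p σ) =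
      ∫⁻ y, (e '' (G '' V)).indicator (fun z => ENNReal.ofReal (h' z ^ s)) (E y) ∂(muE p σ) := by
    rw [← lintegral_indicator (co_meas hGVc)]
    refine lintegral_congr fun y => ?_
    by_cases hy : y ∈ G '' V
    · rw [Set.indicator_of_mem hy, Set.indicator_of_mem]
      rw [← he]
      exact Set.mem_image_of_mem _ hy
    · rw [Set.indicator_of_notMem hy, Set.indicator_of_notMem]
      rw [← he]
      rintro ⟨z, hz, hzy⟩
      exact hy (e.injective hzy ▸ hz)
  have hgm : Measurable ((e '' (G '' V)).indicator (fun z => ENNReal.ofReal (h' z ^ s))) :=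
    (siz_meas hh' s).indicator (co_meas hWc)
  have e4 : ∫⁻ y, (e '' (G '' V)).indicator (fun z => ENNReal.ofReal (h' z ^ s)) (E y)
        ∂(muE p σ) = κ * ∫⁻ z in e '' (G '' V), ENNReal.ofReal (h' z ^ s) ∂(muE p σ) := by
    have t1 := lintegral_add_right_eq_self (μ := muE p σ)
      (fun y => (e '' (G '' V)).indicator (fun z => ENNReal.ofReal (h' z ^ s)) (E y)) P
    have t2 := hκ (fun z => (e '' (G '' V)).indicator (fun z => ENNReal.ofReal (h' z ^ s))
      (Φ P + z)) (hgm.comp (measurable_const_add _))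
    have t3 := lintegral_add_left_eq_self (μ := muE p σ)
      (fun z => (e '' (G '' V)).indicator (fun z => ENNReal.ofReal (h' z ^ s)) z) (Φ P)
    rw [← t1]
    simp only [hE, add_sub_cancel_right]
    rw [t2, t3, lintegral_indicator (co_meas hWc)]
  unfold IZ
  rw [e1, e2, e3, e4, ENNReal.toReal_mul]
  push_cast
  rfl

end Pool.Agent.Q57.QP
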