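import Pool.Agent.Q57.QP.Main
import Pool.Agent.Q57.QM.Stm4

set_option autoImplicit false
set_option linter.unusedSectionVars false
set_option linter.unusedVariables false

/-! # Polynomials of degree at most two in three variables near a point -/

namespace Pool.Agent.Q57.QP

open MvPolynomial
open Pool.Agent.Q57.QM (StQ3)

theorem q3_of (hS : StSmooth) (hF : StForms) (hA : StAff) (hU : StUnit) : StQ3 := by
  intro p _ φ r f hne hdeg P
  classical
  by_cases h0 : nrm f P = 0
  · have hz := (nrm_eq_zero f P).1 h0
    by_cases hg : ∃ j i, eval P (pderiv i (f j)) ≠ 0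
    · obtain ⟨j, i, h2⟩ := hg
      exact hS p φ f P j i hz (hdeg j) h2
    · push Not at hg
      refine hA p φ f P 1 (by rw [Matrix.det_one]; exact one_ne_zero) hne ?_
      have e1 : (fun i : Fin 3 => (C (P i) + ∑ k, C ((1 : Matrix (Fin 3) (Fin 3) ℚ_[p]) i k) * X k :
          MvPolynomial (Fin 3) ℚ_[p])) = fun i => C (P i) + X i := by
        funext i
        congr 1
        rw [Finset.sum_eq_single i]
        · rw [Matrix.one_apply_eq, C_1, one_mul]
        · intro k _ hk
          rw [Matrix.one_apply_ne (Ne.symm hk), C_0, zero_mul]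
        · intro h
          exact absurd (Finset.mem_univ i) h
      rw [e1]
      refine hF p φ _ ?_ fun j => trans_homog P (f j) (hdeg j) (hz j) fun k => hg j k
      obtain ⟨j, hj⟩ := hne
      refine ⟨j, fun h => hj ?_⟩
      have h2 : (aeval (fun i => X i - C (P i) : Fin 3 → MvPolynomial (Fin 3) ℚ_[p])).comp
          (aeval (fun i => C (P i) + X i : Fin 3 → MvPolynomial (Fin 3) ℚ_[p])) =
          AlgHom.id _ _ := by
        refine MvPolynomial.algHom_ext fun i => ?_
        simp
      have h3 := congrArg (fun ψ : MvPolynomial (Fin 3) ℚ_[p] →ₐ[ℚ_[p]]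
        MvPolynomial (Fin 3) ℚ_[p] => ψ (f j)) h2
      simp only [AlgHom.comp_apply, AlgHom.id_apply] at h3
      rw [← h3, h, map_zero]
  · exact hU p (nrm f) (siz_nrm f) _ P h0

end Pool.Agent.Q57.QP
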