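import Pool.Agent.Q38.QP.PL1
import Pool.Agent.Q38.QP.PLANE
import Pool.Agent.Q38.QP.X1
import Pool.Agent.Q38.QP.FORMS
import Pool.Agent.Q210.QP.Pl2
import Pool.Agent.Q210.QP.Iso
import Pool.Agent.Q210.QP.Lin
import Pool.Agent.Q57.QP.DiffN
import Pool.Agent.Q57.QP.Cone
import Pool.Agent.Q57.QP.Q3
import Pool.Agent.Q57.QPF.Free
import Pool.Agent.Q24.QP.DIFF
import Pool.Agent.Q261.QP.GLUE
import Pool.Agent.Q247.QP.FFJ
import Pool.Agent.Q247.QP.MulJ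
import Pool.Agent.Q247.QP.SmoothJ
import Pool.Agent.Q247.QP.Form3J
import Pool.Agent.Q137.QP.ALG
import Pool.Agent.Q16.QP.Norm
import Pool.Agent.Q16.QP.RootQ
import Pool.Agent.Q162.QP.Fin
import Pool.Agent.Q162.QP.Aff

set_option autoImplicit false

/-! # All steps -/

namespace Pool.Agent.Q57.QP

theorem st_plane : StPlane :=
  Pool.Agent.Q38.QP.qp_plane Pool.Agent.Q38.QP.qp_pl1 Pool.Agent.Q210.QP.qp_pl2
    Pool.Agent.Q210.QP.qp_open

theorem st_diff : StDiff :=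
  Pool.Agent.Q24.QP.qp_diff (qp_diffn Pool.Agent.Q210.QP.qp_iso Pool.Agent.Q210.QP.qp_lin)
    (Pool.Agent.Q57.QPF.qp_free Pool.Agent.Q261.QP.qp_ball)

theorem st_cone : StCone :=
  qp_cone Pool.Agent.Q261.QP.qp_ball Pool.Agent.Q261.QP.qp_glue Pool.Agent.Q261.QP.qp_unit

theorem st_x1 : StX1 := Pool.Agent.Q38.QP.qp_x1 st_cone Pool.Agent.Q261.QP.qp_unit

theorem st_mul : StMul := Pool.Agent.Q247.QP.qp_mul Pool.Agent.Q261.QP.qp_ball

theorem st_max : StMax := Pool.Agent.Q247.QP.qp_max Pool.Agent.Q261.QP.qp_ball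

theorem st_ff : StFF := Pool.Agent.Q247.QP.qp_ff Pool.Agent.Q261.QP.qp_glue

theorem st_aff : StAff := Pool.Agent.Q162.QP.qp_aff st_diff

theorem st_smooth : StSmooth :=
  Pool.Agent.Q247.QP.qp_smooth Pool.Agent.Q137.QP.qp_alg Pool.Agent.Q16.QP.qp_norm
    Pool.Agent.Q16.QP.qp_rootq st_x1 st_max st_plane st_diff Pool.Agent.Q210.QP.qp_eval st_aff
    Pool.Agent.Q261.QP.qp_unit

theorem st_form3 : StForm3 :=
  Pool.Agent.Q247.QP.qp_form3 st_cone Pool.Agent.Q261.QP.qp_unit Pool.Agent.Q261.QP.qp_scale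
    st_plane st_diff Pool.Agent.Q210.QP.qp_eval

theorem st_forms : StForms :=
  Pool.Agent.Q38.QP.qp_forms Pool.Agent.Q162.QP.qp_conics st_form3 Pool.Agent.Q162.QP.qp_hess
    st_aff st_plane st_diff st_mul st_x1

theorem st_q3 : Pool.Agent.Q57.QM.StQ3 := q3_of st_smooth st_forms st_aff Pool.Agent.Q261.QP.qp_unit

end Pool.Agent.Q57.QP
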