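import Pool.Agent.Q57.QP.Base
import Pool.Agent.Y230.TH.Fin
import Pool.Agent.Q57.QM.Stm4

set_option autoImplicit false
set_option linter.unusedSectionVars false
set_option linter.unusedVariables false

/-! # The induction -/

namespace Pool.Agent.Q57.QP

open MeasureTheory MvPolynomial Topology
open Pool.Agent.W427.SMC Pool.Agent.Y230.PT Pool.Agent.Y230.PS Pool.Agent.Y230.TH
open Pool.Agent.Y229 (SF IsLocalBI)
open Pool.Agent.Q57.MC (sf_forced)
open Pool.Agent.W574.RO (Forced)
open Pool.Agent.Q57.MD (OnlyTrivial HT)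
open Pool.Agent.Y230.RE Pool.Agent.W574.SM Pool.Agent.W574.CN
open scoped ENNReal

attribute [local instance] msK bsK msZ bsZ

variable {p : ℕ} [Fact p.Prime]

/-- **Systems of quadrics in three variables.** -/
theorem base_quad (hFF : StFF) (hS : StSmooth) (hF : StForms) (hA : StAff) (hU : StUnit) {r : ℕ}
    (f : Fin r → MvPolynomial (Fin 3) ℚ) (hf : QuadSys f) (c : Fin 3 → ℚ_[p])
    (hc : ∀ i, c i ≠ 0) :
    FR p (mR p ⟨Fin 3, Fin r, f⟩) (FF (scl c (FamQ.toP p ⟨Fin 3, Fin r, f⟩))) := by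
  classical
  obtain ⟨φ⟩ := exists_emb p
  have hφ : φ.comp (algebraMap ℚ ℚ_[p]) = algebraMap ℚ ℂ := RingHom.ext_rat _ _
  set fp : Fin r → MvPolynomial (Fin 3) ℚ_[p] := FamQ.toP p ⟨Fin 3, Fin r, f⟩ with hfp
  have hfpj : ∀ j, fp j = map (algebraMap ℚ ℚ_[p]) (f j) := fun j => rfl
  have hne : ∃ j, fp j ≠ 0 := toP_ne ⟨Fin 3, Fin r, f⟩ hf.1
  have hmap : (fun j => map φ (fp j)) = FamQ.toC ⟨Fin 3, Fin r, f⟩ := by
    funext j
    rw [hfpj, map_map, hφ]
    rfl
  have hev : ∀ (P : Fin 3 → ℚ_[p]) (q : MvPolynomial (Fin 3) ℚ),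
      aeval (fun i => φ (P i)) q = φ (eval P (map (algebraMap ℚ ℚ_[p]) q)) := by
    intro P q
    rw [eval_map, ← coe_eval₂Hom, ← RingHom.comp_apply, aeval_def, ← coe_eval₂Hom]
    congr 1
    apply MvPolynomial.ringHom_ext
    · intro a
      rw [eval₂Hom_C, RingHom.comp_apply, eval₂Hom_C, ← hφ, RingHom.comp_apply]
    · intro i
      rw [eval₂Hom_X', RingHom.comp_apply, eval₂Hom_X']
  have hdeg : ∀ j, (f j).totalDegree ≤ 2 → (fp j).totalDegree ≤ 2 := by
    intro j hj
    refine le_trans ?_ hj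
    rw [hfpj, totalDegree, totalDegree]
    exact Finset.sup_mono (support_map_subset _ _)
  refine hFF p fp _ (fun P => ?_) c hc
  by_cases h0 : nrm fp P = 0
  · have hz := (nrm_eq_zero fp P).1 h0
    have key : LPF φ fp P := by
      by_cases hg : ∃ j i, (f j).totalDegree ≤ 2 ∧ eval P (pderiv i (fp j)) ≠ 0
      · obtain ⟨j, i, h1, h2⟩ := hg
        exact hS p φ fp P j i hz (hdeg j h1) h2
      · push Not at hg
        have hall : ∀ j, (f j).totalDegree ≤ 2 := by
          rcases hf.2 with h | h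
          · exact h
          · exfalso
            obtain ⟨j, i, h1, h2⟩ := h (fun i => φ (P i)) fun j => by
              rw [hev, ← hfpj, hz j, map_zero]
            apply h2
            rw [hev, ← pderiv_map, ← hfpj, hg j i h1, map_zero]
        refine hA p φ fp P 1 (by rw [Matrix.det_one]; exact one_ne_zero) hne ?_
        have e1 : (fun i : Fin 3 => (C (P i) + ∑ k, C ((1 : Matrix (Fin 3) (Fin 3) ℚ_[p]) i k) * X k :
            MvPolynomial (Fin 3) ℚ_[p])) = fun i => C (P i) + X i := by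
          funext i
          congr 1
          rw [Finset.sum_eq_single i]
          · rw [Matrix.one_apply_eq, C_1, one_mul]
          · intro k _ hk
            rw [Matrix.one_apply_ne (Ne.symm hk), C_0, zero_mul]
          · intro h
            exact absurd (Finset.mem_univ i) h
        rw [e1]
        refine hF p φ _ ?_ fun j => trans_homog P (fp j) (hdeg j (hall j)) (hz j)
          fun k => hg j k (hall j)
        obtain ⟨j, hj⟩ := hne
        refine ⟨j, fun h => hj ?_⟩
        have h2 : (aeval (fun i => X i - C (P i) : Fin 3 → MvPolynomial (Fin 3) ℚ_[p])).comp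
            (aeval (fun i => C (P i) + X i : Fin 3 → MvPolynomial (Fin 3) ℚ_[p])) =
            AlgHom.id _ _ := by
          refine MvPolynomial.algHom_ext fun i => ?_
          simp
        have h3 := congrArg (fun ψ : MvPolynomial (Fin 3) ℚ_[p] →ₐ[ℚ_[p]]
          MvPolynomial (Fin 3) ℚ_[p] => ψ (fp j)) h2
        simp only [AlgHom.comp_apply, AlgHom.id_apply] at h3
        rw [← h3, h, map_zero]
    refine LP.mono key fun T hT => mS_le φ fp P _ T fun h => mR_top ?_
    rw [hmap] at h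
    exact sf_forced h
  · exact hU p (nrm fp) (siz_nrm fp) _ P h0

/-- quadratic forms in four variables -/
theorem base_q4 (hFF : StFF) (hQ : Pool.Agent.Q57.QM.StQ4) {r : ℕ}
    (f : Fin r → MvPolynomial (Fin 4) ℚ) (hf : ∃ j, f j ≠ 0) (h2 : ∀ j, (f j).IsHomogeneous 2)
    (c : Fin 4 → ℚ_[p]) (hc : ∀ i, c i ≠ 0) :
    FR p (mR p ⟨Fin 4, Fin r, f⟩) (FF (scl c (FamQ.toP p ⟨Fin 4, Fin r, f⟩))) := by
  classical
  obtain ⟨φ⟩ := exists_emb p
  have hφ : φ.comp (algebraMap ℚ ℚ_[p]) = algebraMap ℚ ℂ := RingHom.ext_rat _ _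
  set fp : Fin r → MvPolynomial (Fin 4) ℚ_[p] := FamQ.toP p ⟨Fin 4, Fin r, f⟩ with hfp
  have hfpj : ∀ j, fp j = map (algebraMap ℚ ℚ_[p]) (f j) := fun j => rfl
  have hne : ∃ j, fp j ≠ 0 := toP_ne ⟨Fin 4, Fin r, f⟩ hf
  have hmap : (fun j => map φ (fp j)) = FamQ.toC ⟨Fin 4, Fin r, f⟩ := by
    funext j
    rw [hfpj, map_map, hφ]
    rfl
  refine hFF p fp _ (fun P => ?_) c hc
  refine LP.mono (hQ p φ fp hne (fun j => (h2 j).map _) P) fun T hT =>
    mS_le φ fp P _ T fun h => mR_top ?_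
  rw [hmap] at h
  exact sf_forced h

/-- the two conditions on the forms of a cone -/
def ConeCond {n r : ℕ} (d : ℕ) (f : Fin r → MvPolynomial (Fin (n + 1)) ℚ) : Prop :=
  (∃ e : Fin (n + 1) → Fin r, (Matrix.of fun s t => pderiv s (f (e t))).det ≠ 0) ∨
    (∃ lam : Fin r → ℂ, 2 ≤ d ∧ ∑ j, C (lam j) * map (algebraMap ℚ ℂ) (f j) ≠ 0 ∧
      OnlyTrivial Finset.univ (∑ j, C (lam j) * map (algebraMap ℚ ℂ) (f j)))

theorem cone_ne {n r : ℕ} (d : ℕ) (f : Fin r → MvPolynomial (Fin (n + 1)) ℚ)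
    (h : ConeCond d f) : ∃ j, f j ≠ 0 := by
  rcases h with ⟨e, he⟩ | ⟨lam, -, h, -⟩
  · exact det_ne f e he
  · by_contra h0
    push Not at h0
    apply h
    refine Finset.sum_eq_zero fun j _ => ?_
    rw [h0, map_zero, mul_zero]

/-- the root of the exceptional divisor -/
theorem cone_root {n r : ℕ} (d : ℕ) (hd : 0 < d) (f : Fin r → MvPolynomial (Fin (n + 1)) ℚ)
    (hf : ∀ j, (f j).IsHomogeneous d) (h : ConeCond d f) :
    Forced (FamQ.toC ⟨Fin (n + 1), Fin r, f⟩) (-((n : ℂ) + 1) / d) := by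
  classical
  rcases h with ⟨e, he⟩ | ⟨lam, h2, h3, h4⟩
  · intro b hb
    exact generic_root (FamQ.toC ⟨Fin (n + 1), Fin r, f⟩) d hd (fun j => (hf j).map _) b hb e
      (det_map f e he)
  · have h5 : SF (FamQ.toC ⟨Fin (n + 1), Fin r, f⟩) 0
        (-((Finset.univ : Finset (Fin (n + 1))).card : ℂ) / d) := by
      refine Pool.Agent.Q57.MD.sf_koszul Finset.univ Finset.univ_nonempty _ d h2 (fun j => ?_) lam
        h3 h4
      have h6 : (map (algebraMap ℚ ℂ) (f j)).IsHomogeneous d := (hf j).map _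
      intro m hm
      have h7 := h6 hm
      rw [← h7]
      congr 1
      congr 1
      funext i
      simp
    rw [Finset.card_univ, Fintype.card_fin] at h5
    push_cast at h5
    exact sf_forced h5

/-- **The zeta functions of the ideals in the class**, on all polydiscs. -/
theorem gq_main (hFF : StFF) (hS : StSmooth) (hF : StForms) (hA : StAff) (hU : StUnit)
    (hQ : Pool.Agent.Q57.QM.StQ4)
    (A : FamQ) (h : GQ A) : (∃ j, A.f j ≠ 0) ∧ ∀ c : A.σ → ℚ_[p], (∀ i, c i ≠ 0) →
      FR p (mR p A) (FF (scl c (A.toP p))) := by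
  classical
  have hM := isMlt_R (p := p)
  induction h with
  | plane r f hf => exact good_main hM _ (Good.plane r f hf)
  | quad r f hf => exact ⟨hf.1, base_quad hFF hS hF hA hU f hf⟩
  | quad4 r f hf h => exact ⟨hf, base_q4 hFF hQ f hf h⟩
  | free A g h => exact good_main hM _ (Good.free A g h)
  | sum A B hA hB ihA ihB =>
    refine ⟨sum_ne A B ihA.1, fun c hc => ?_⟩
    rw [toP_sum, scl_sumK]
    exact FR_sumK _ _ _ _ _ (hM.sum A B) (ihA.2 _ fun i => hc _) (ihB.2 _ fun i => hc _)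
  | mul A B hA hB ihA ihB =>
    refine ⟨mul_ne A B ihA.1 ihB.1, fun c hc => ?_⟩
    rw [toP_mul, scl_mulK]
    refine (FR.mul (ihA.2 (fun i => c (Sum.inl i)) fun i => hc _)
      (ihB.2 (fun i => c (Sum.inr i)) fun i => hc _)
      (fun T hT => hM.mul A B T hT ihA.1 ihB.1)).congr fun s hs => ?_
    rw [FF_mulK]
  | equiv A B i k h hA ihA =>
    refine ⟨equiv_ne A B i k h ihA.1, fun c hc => ?_⟩
    refine ((ihA.2 (fun a => c (i a)) fun a => hc _).mono fun T hT =>
      hM.equiv A B i k h T hT).congr fun s hs => ?_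
    rw [FF_equiv i k (scl (fun a => c (i a)) (A.toP p)) (scl c (B.toP p)) (fun j => ?_) s]
    change aeval _ (map (algebraMap ℚ ℚ_[p]) (B.f (k j))) = _
    rw [h, map_rename]
    exact scl_rename (ι := A.ι) (κ := A.ι) i c _
  | cone n r d hd f hf he h ih =>
    refine ⟨cone_ne d f he, fun c hc => ?_⟩
    have hroot := cone_root d hd f hf he
    refine FR_cone (FamQ.toP p ⟨Fin (n + 1), Fin r, f⟩) d hd (fun j => (hf j).map _)
      (mR p ⟨Fin (n + 1), Fin r, f⟩) _ (fun T hT => ?_) (fun i c' hc' => ?_) c hc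
    · by_cases h1 : Forced (FamQ.toC ⟨Fin (n + 1), Fin r, f⟩) ((rr p T : ℝ) : ℂ)
      · rw [mR_top h1]
        exact le_top
      · have h3 : ¬ T ^ d = (p : ℂ) ^ (n + 1) := by
          intro h3
          apply h1
          rw [rr_cone n d hd T h3]
          exact hroot
        rw [mR_zero h1, if_neg h3, zero_add]
    · have h1 := ((ih i).2 c' hc').mono (m' := mR p ⟨Fin (n + 1), Fin r, f⟩) fun T hT => ?_
      · have h2 : FamQ.toP p ⟨Fin n, Fin r, fun j => dehQ i (f j)⟩ =
            fun j => dehK i (FamQ.toP p ⟨Fin (n + 1), Fin r, f⟩ j) := by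
          funext j
          exact map_dehQ i (f j)
        rw [← h2]
        exact h1
      · by_cases h1 : Forced (FamQ.toC ⟨Fin (n + 1), Fin r, f⟩) ((rr p T : ℝ) : ℂ)
        · rw [mR_top h1]
          exact le_top
        · have h2 : ¬ Forced (FamQ.toC ⟨Fin n, Fin r, fun j => dehQ i (f j)⟩)
              ((rr p T : ℝ) : ℂ) := fun h2 => h1 fun b hb => by
            apply h2 b
            have h3 := functionalEq_deh i (FamQ.toC ⟨Fin (n + 1), Fin r, f⟩) d
              (fun j => (hf j).map _) b hb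
            have h4 : FamQ.toC ⟨Fin n, Fin r, fun j => dehQ i (f j)⟩ =
                fun j => deh i (FamQ.toC ⟨Fin (n + 1), Fin r, f⟩ j) := by
              funext j
              exact map_dehC i (f j)
            rw [h4]
            exact h3
          rw [mR_zero h2]
          exact bot_le

/-- **The zeta functions of the class.** -/
theorem qts_main (hFF : StFF) (hS : StSmooth) (hF : StForms) (hA : StAff) (hU : StUnit)
    (hQ : Pool.Agent.Q57.QM.StQ4)
    {mref : FamQ → ℂ → ℕ∞} (hM : IsMltT p false (mR p) mref) (c : Bool) (A : FamQ)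
    (h : QTS c A) : (∃ j, A.f j ≠ 0) ∧
      FR p (if c = true then mref A else mR p A) (FF (A.toP p)) := by
  classical
  induction h with
  | good A h =>
    obtain ⟨h1, h2⟩ := gq_main (p := p) hFF hS hF hA hU hQ A h
    refine ⟨h1, ?_⟩
    have h3 := h2 (fun _ => 1) fun _ => one_ne_zero
    rw [scl_one] at h3
    simpa using h3
  | curve g hg => exact ⟨⟨(0 : Fin 1), hg⟩, by simpa using hM.curve g hg⟩
  | hyp A h ih =>
    refine ⟨ih.1, ?_⟩
    have h1 := ih.2
    simp only [if_true] at h1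
    simpa using h1.mono (hM.hyp A)
  | sum A B hA hB ihA ihB =>
    refine ⟨sum_ne A B ihA.1, ?_⟩
    rw [toP_sum]
    have h1 := ihA.2
    have h2 := ihB.2
    simp only [Bool.false_eq_true, if_false] at h1 h2 ⊢
    exact FR_sumK _ _ _ _ _ (hM.base.sum A B) h1 h2
  | mul c A B hA hB ihA ihB =>
    refine ⟨mul_ne A B ihA.1 ihB.1, ?_⟩
    rw [toP_mul]
    have h1 := ihA.2
    have h2 := ihB.2
    cases c
    · simp only [Bool.false_eq_true, if_false] at h1 h2 ⊢
      refine (FR.mul h1 h2 (fun T hT => hM.base.mul A B T hT ihA.1 ihB.1)).congr fun s hs => ?_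
      rw [FF_mulK]
    · simp only [if_true] at h1 h2 ⊢
      refine (FR.mul h1 h2 (fun T hT => hM.mul A B T hT ihA.1 ihB.1)).congr fun s hs => ?_
      rw [FF_mulK]
  | univ A hA ihA =>
    refine ⟨univ_ne A ihA.1, ?_⟩
    rw [toP_univ]
    have hι : Nonempty A.ι := ⟨ihA.1.choose⟩
    have h1 := ihA.2
    simp only [Bool.false_eq_true, if_false, if_true] at h1 ⊢
    exact FR_univK hι _ _ _ (fun T hT => hM.univ A T hT ihA.1) h1
  | ts A τ g hA hg ihA ihg =>
    have hg0 : g ≠ 0 := by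
      obtain ⟨j, hj⟩ := ihg.1
      exact hj
    refine ⟨ts_ne A τ g hg0, ?_⟩
    rw [toP_ts]
    have hι : Nonempty A.ι := ⟨ihA.1.choose⟩
    have h1 := ihA.2
    have h2 := ihg.2
    simp only [Bool.false_eq_true, if_false, if_true] at h1 h2 ⊢
    exact FR_ts Pool.Agent.Y287.TH.tZ _ _ _ _ _ (hM.ts A τ g ihA.1 hg0)
      (hM.one A τ g ihA.1 hg0) h1 h2
  | drop σ κ g h ih =>
    refine ⟨⟨(0 : Fin 1), fun h0 => ?_⟩, ?_⟩
    · obtain ⟨j, hj⟩ := ih.1
      apply hj
      have h1 : g = 0 := h0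
      change rename Sum.inl g = 0
      rw [h1, map_zero]
    · have h1 := ih.2
      simp only [if_true] at h1 ⊢
      refine (h1.mono (hM.drop σ κ g)).congr fun s hs => ?_
      have h2 := FF_drop (κ := κ) (map (algebraMap ℚ ℚ_[p]) g) s
      refine Eq.trans ?_ h2
      congr 1
      funext j
      exact map_rename _ _ _
  | equiv c A B i k h hA ihA =>
    refine ⟨equiv_ne A B i k h ihA.1, ?_⟩
    have h3 : ∀ s : ℝ, FF (A.toP p) s = FF (B.toP p) s := fun s => by
      rw [FF_equiv i k (A.toP p) (B.toP p) (fun j => ?_) s]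
      change map (algebraMap ℚ ℚ_[p]) (B.f (k j)) = _
      rw [h, map_rename]
      rfl
    have h1 := ihA.2
    cases c
    · simp only [Bool.false_eq_true, if_false] at h1 ⊢
      exact (h1.mono fun T hT => hM.base.equiv A B i k h T hT).congr fun s hs => h3 s
    · simp only [if_true] at h1 ⊢
      exact (h1.mono fun T hT => hM.equiv A B i k h T hT).congr fun s hs => h3 s

end Pool.Agent.Q57.QP
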